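import Mathlib
import Pool.Agent.R932.MtEven

/-!
# The Mumford-Tate conjecture for `H^2` at 100 percent of the primes `ℓ`, even rank

Let `X` be a smooth projective variety over a field `k` which is finitely generated over `ℚ`, with
`H^2(X, ℚ)(1) = N ⊕ T`, `N` the algebraic classes (`k^κ`) and `T` the transcendental part, a
polarised rational Hodge structure of level two with the Hodge numbers `(p, q, p)`.  Suppose that
`T` has no endomorphisms besides the rational scalars, and that `p = 1`, `q ≠ 0, 2` or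
`2 p^2 (p^2 + 1) < (q - 2 p) (q + p)` (for example `p = 2`, `q ≥ 10`). Let `n = 2 p + q` be the rank of `T`.
`Γ` is the Galois group of `k` (or the fundamental group of a model), `K` a number
field and `s : G_K → Γ` the homomorphism given by a closed point of the generic fibre of a model of
`X` (if `k` is a number field, then `K = k` and `s` is the identity). `Γ` acts on `N ⊗ ℚ_ℓ` through a
finite group, it preserves the intersection form on `T`, and at the places `v` of `K` of good
reduction the characteristic polynomial `P_v` of the geometric Frobenius on `T` has rational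
coefficients which do not depend on `ℓ` (Deligne).

**Theorem.** Suppose that
(1) at some place `w₀` of good reduction the roots of `P_{w₀}` are simple and `x / y = z / u` for roots
`x ≠ y`, `z`, `u` only if `(z, u) = (x, y)` or `(z, u) = (1 / y, 1 / x)`;
(2) `u_0, ..., u_m` are places at which the roots of `P_{u_i}` are simple and no quotient of
different roots is a root of unity, and for every `g` in `Gal(ℚ)` and every `d` with `0 < d < n` there
are a place `v` of this kind and an element `w` of `Gal(ℚ)` which agrees with `g` on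
the intersection of the splitting fields of the `P_{u_i}` such that no set of `d` roots of `P_v` is
stable under `w`, and also a place `v` and an element `w` of this kind such that `w` fixes a root of `P_v`.
Then the Mumford-Tate conjecture for `H^2(X)` holds for all prime numbers `ℓ` outside a set of natural
density zero: the identity component of the Zariski closure of the image of `Γ` in
`GL(H^2(X, ℚ_ℓ)(1))` is the Mumford-Tate group.

The hypotheses are conditions on finitely many Frobenius polynomials (they force `n` to be even; the case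
of odd `n` is `OddRankDensityOne`, which has a different proof). If the Galois groups of the polynomials
`P_v` are the Weyl group of type `D` (extended by a quadratic field), the conditions can be
satisfied. Nothing is assumed about the representation at any single prime `ℓ` (no semisimplicity,
no irreducibility, no monodromy).

Idea of the proof: the starting files show that under (1) and (2) the Lie algebra of the image of `Γ` in
`GL(T ⊗ ℚ_ℓ)` is `so(T ⊗ ℚ_ℓ)` at 100 percent of the `ℓ` (motives with real multiplication, in the case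
of the field `ℚ`). Here we show that tangent vectors of the image lie in the Lie algebra of the
Zariski closure: they preserve the ideal of the image of every subgroup of finite index, over every field
extension of `ℚ_ℓ`. So the monodromy group of `N ⊕ T` is `1 × SO(T)`, and by the theorem on big Hodge
structures in the starting files this is the Mumford-Tate group.
-/

set_option autoImplicit false

namespace Pool.Agent.Results.MP_6369ef_ag.EvenRankDensityOne

open MvPolynomial Matrix Filter Topology NumberField IsDedekindDomain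
open Pool.Agent.W544.PG (HS)

noncomputable section

section groups

variable {ι : Type} [Fintype ι] [DecidableEq ι]

/-- The value of a rational polynomial in the entries at a matrix. -/
def value {R : Type} [CommRing R] [Algebra ℚ R] (g : Matrix ι ι R)
    (f : MvPolynomial (ι × ι) ℚ) : R :=
  aeval (fun q : ι × ι => g q.1 q.2) f

/-- `G` is the set of complex points of an algebraic subgroup over `ℚ` of the general linear
group. -/
def IsQGroup (G : Set (Matrix ι ι ℂ)) : Prop :=
  (∃ P : Set (MvPolynomial (ι × ι) ℚ), ∀ g, g ∈ G ↔ g.det ≠ 0 ∧ ∀ f ∈ P, value g f = 0) ∧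
  1 ∈ G ∧ (∀ a ∈ G, ∀ b ∈ G, a * b ∈ G) ∧ ∀ a ∈ G, a⁻¹ ∈ G

/-- The complex points of the Mumford-Tate group: the smallest algebraic subgroup over `ℚ` which
contains `h z` for all `z`. -/
def mumfordTate (h : ℂ → Matrix ι ι ℂ) : Set (Matrix ι ι ℂ) :=
  {g | ∀ G, IsQGroup G → (∀ z, z ≠ 0 → h z ∈ G) → g ∈ G}

/-- The points of the Mumford-Tate group over a field `R`. -/
def InMumfordTate {R : Type} [Field R] [Algebra ℚ R] (h : ℂ → Matrix ι ι ℂ)
    (g : Matrix ι ι R) : Prop :=
  ∀ f : MvPolynomial (ι × ι) ℚ, (∀ m ∈ mumfordTate h, value m f = 0) → value g f = 0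

variable {ℓ : ℕ} [Fact ℓ.Prime] {Γ : Type} [Group Γ]

/-- The points of the identity component of the Zariski closure of `ρ(Γ)` over the algebraic
closure of `ℚ_ℓ`: a polynomial that vanishes on the image of a subgroup of finite index vanishes
at `g`. -/
def InMonodromy (ρ : Γ →* Matrix ι ι ℚ_[ℓ]) (g : Matrix ι ι (AlgebraicClosure ℚ_[ℓ])) : Prop :=
  ∀ f : MvPolynomial (ι × ι) (AlgebraicClosure ℚ_[ℓ]),
    (∃ Δ : Subgroup Γ, Δ.FiniteIndex ∧ ∀ s ∈ Δ,
      aeval (fun q : ι × ι => algebraMap ℚ_[ℓ] (AlgebraicClosure ℚ_[ℓ]) (ρ s q.1 q.2)) f = 0) →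
    aeval (fun q : ι × ι => g q.1 q.2) f = 0

/-- The Mumford-Tate conjecture: the two groups agree over `ℚ_ℓ`. -/
def MumfordTateConjecture (h : ℂ → Matrix ι ι ℂ) (ρ : Γ →* Matrix ι ι ℚ_[ℓ]) : Prop :=
  ∀ g : Matrix ι ι (AlgebraicClosure ℚ_[ℓ]), g.det ≠ 0 → (InMonodromy ρ g ↔ InMumfordTate h g)

end groups

variable {n : ℕ}

/-- The action of `ℂ^×` on `N ⊕ T`: trivial on `N`, and on `T` it is multiplication by `conj z / z`,
`1`, `z / conj z` on the parts where `T.x` is `1`, `0`, `-1`. -/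
def hodge (κ : Type) [Fintype κ] [DecidableEq κ] (T : HS n) (z : ℂ) :
    Matrix (κ ⊕ Fin n) (κ ⊕ Fin n) ℂ :=
  fromBlocks 1 0 0 (1 + ((starRingEnd ℂ z / z - 1) / 2) • (T.x * T.x + T.x) +
    ((z / starRingEnd ℂ z - 1) / 2) • (T.x * T.x - T.x))

/-- An `ℓ`-adic integral matrix as a matrix over `ℚ_ℓ`. -/
def rat {ℓ : ℕ} [Fact ℓ.Prime] (g : Matrix (Fin n) (Fin n) ℤ_[ℓ]) :
    Matrix (Fin n) (Fin n) ℚ_[ℓ] :=
  g.map (algebraMap ℤ_[ℓ] ℚ_[ℓ])

/-- The representation `α ⊕ β` of the Galois group on `N ⊕ T`. -/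
def galois {κ : Type} [Fintype κ] [DecidableEq κ] {ℓ : ℕ} [Fact ℓ.Prime] {Γ : Type} [Group Γ]
    (α : Γ →* Matrix κ κ ℚ_[ℓ]) (β : Γ →* Matrix (Fin n) (Fin n) ℤ_[ℓ]) :
    Γ →* Matrix (κ ⊕ Fin n) (κ ⊕ Fin n) ℚ_[ℓ] where
  toFun σ := fromBlocks (α σ) 0 0 (rat (β σ))
  map_one' := (Pool.Agent.Y95.MT.tot α β).map_one
  map_mul' := (Pool.Agent.Y95.MT.tot α β).map_mul

/-- the absolute Galois group of `K`, with its profinite (Krull) topology -/
abbrev AbsoluteGaloisGroup (K : Type) [Field K] : Type := Gal(AlgebraicClosure K/K)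

/-- `σ` is an (arithmetic) Frobenius element at the prime `v` of the number field `K`: for some prime
`Q` of the algebraic closure above `v` it acts on the residue field as `x ↦ x ^ N(v)` -/
def IsFrobenius {K : Type} [Field K] [NumberField K] (v : HeightOneSpectrum (𝓞 K))
    (σ : AbsoluteGaloisGroup K) : Prop :=
  ∃ Q : Ideal (𝓞 (AlgebraicClosure K)), Q.IsMaximal ∧
    Q.comap (algebraMap (𝓞 K) (𝓞 (AlgebraicClosure K))) = v.asIdeal ∧
    ∀ x : 𝓞 (AlgebraicClosure K), σ • x - x ^ Ideal.absNorm v.asIdeal ∈ Q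

/-- `α` and `β` are the representations on the algebraic classes and on `T`: both are continuous, `α` has
finite image, `β` preserves the form of `T`, and for all `v ∉ S` which are prime to `ℓ` the
characteristic polynomial of (the image under `s` of) the geometric Frobenius elements `σ⁻¹` (`σ`
arithmetic) at `v` on `T` is `P v` -/
def IsSystem {K : Type} [Field K] [NumberField K] {Γ : Type} [Group Γ] [TopologicalSpace Γ]
    (s : AbsoluteGaloisGroup K →* Γ) {κ : Type} [Fintype κ] [DecidableEq κ] (T : HS n)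
    (S : Set (HeightOneSpectrum (𝓞 K))) (P : HeightOneSpectrum (𝓞 K) → Polynomial ℚ) (ℓ : ℕ)
    [Fact ℓ.Prime] (α : Γ →* Matrix κ κ ℚ_[ℓ]) (β : Γ →* Matrix (Fin n) (Fin n) ℤ_[ℓ]) : Prop :=
  Continuous α ∧ (Set.range α).Finite ∧ Continuous β ∧
    (∀ σ, (rat (β σ))ᵀ * T.Q.map (algebraMap ℚ ℚ_[ℓ]) * rat (β σ) =
      T.Q.map (algebraMap ℚ ℚ_[ℓ])) ∧
    ∀ v ∉ S, (ℓ : 𝓞 K) ∉ v.asIdeal → ∀ σ : AbsoluteGaloisGroup K, IsFrobenius v σ →
      (rat (β (s σ⁻¹))).charpoly = (P v).map (algebraMap ℚ ℚ_[ℓ])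

/-- the roots of `P v` are simple, and the quotients `x / y` of different roots are different, except
for `x / y = (1 / y) / (1 / x)` -/
def IsGenericPlace {K : Type} [Field K] [NumberField K]
    (S : Set (HeightOneSpectrum (𝓞 K))) (P : HeightOneSpectrum (𝓞 K) → Polynomial ℚ)
    (v : HeightOneSpectrum (𝓞 K)) : Prop :=
  v ∉ S ∧ (P v).Separable ∧ ∀ x y z u : ℂ, Polynomial.aeval x (P v) = 0 →
    Polynomial.aeval y (P v) = 0 → Polynomial.aeval z (P v) = 0 → Polynomial.aeval u (P v) = 0 →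
    x ≠ y → x * u = z * y → (z = x ∧ u = y) ∨ (z * y = 1 ∧ u * x = 1)

/-- the roots of `P v` are simple, and different roots have different `k`-th powers for all `k > 0` -/
def IsRegularPlace {K : Type} [Field K] [NumberField K]
    (S : Set (HeightOneSpectrum (𝓞 K))) (P : HeightOneSpectrum (𝓞 K) → Polynomial ℚ)
    (v : HeightOneSpectrum (𝓞 K)) : Prop :=
  v ∉ S ∧ (P v).Separable ∧ ∀ k : ℕ, 0 < k → ∀ x y : ℂ,
    Polynomial.aeval x (P v) = 0 → Polynomial.aeval y (P v) = 0 → x ^ k = y ^ k → x = y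

/-- the splitting field of `Q` in the algebraic closure of `ℚ` -/
def splittingField (Q : Polynomial ℚ) : Set (AlgebraicClosure ℚ) :=
  (IntermediateField.adjoin ℚ {x : AlgebraicClosure ℚ | Polynomial.aeval x Q = 0} :
    IntermediateField ℚ (AlgebraicClosure ℚ))

/-- `R` is a set of roots of `Q` which is stable under `w` -/
def IsStableSet (w : AbsoluteGaloisGroup ℚ) (Q : Polynomial ℚ) (R : Set (AlgebraicClosure ℚ)) :
    Prop :=
  (∀ x ∈ R, Polynomial.aeval x Q = 0) ∧ ∀ x ∈ R, w x ∈ R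

/-- the set `A` of prime numbers has natural density zero -/
def HasDensityZero (A : Set ℕ) : Prop :=
  Tendsto (fun n : ℕ => (Nat.card {ℓ : ℕ // ℓ ≤ n ∧ ℓ ∈ A} : ℝ) / (Nat.primeCounting n : ℝ))
    atTop (𝓝 0)

/-- **The Mumford-Tate conjecture for `H^2 = N ⊕ T` at 100 percent of the primes `ℓ`, for `T` of even
rank.** -/
theorem result (T : HS n)
    -- the Hodge structure
    (hEnd : ∀ A : Matrix (Fin n) (Fin n) ℚ,
      A.map (fun a : ℚ => (a : ℂ)) * T.x = T.x * A.map (fun a : ℚ => (a : ℂ)) →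
      ∃ c : ℚ, A = c • (1 : Matrix (Fin n) (Fin n) ℚ))
    (p q : ℕ) (htr : (T.x * T.x).trace = 2 * (p : ℂ)) (hn : n = 2 * p + q)
    (hpq : (p = 1 ∧ 0 < q ∧ q ≠ 2) ∨
      (0 < p ∧ 2 * p ^ 2 * (p ^ 2 + 1) < (q - 2 * p) * (q + p)))
    -- the Galois group
    (K : Type) [Field K] [NumberField K] (Γ : Type) [Group Γ] [TopologicalSpace Γ]
    [IsTopologicalGroup Γ] [CompactSpace Γ] (s : AbsoluteGaloisGroup K →* Γ) (hs : Continuous s)
    (S : Set (HeightOneSpectrum (𝓞 K))) (hS : S.Finite)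
    (P : HeightOneSpectrum (𝓞 K) → Polynomial ℚ)
    (κ : Type) [Fintype κ] [DecidableEq κ]
    (α : ∀ (ℓ : ℕ) [Fact ℓ.Prime], Γ →* Matrix κ κ ℚ_[ℓ])
    (β : ∀ (ℓ : ℕ) [Fact ℓ.Prime], Γ →* Matrix (Fin n) (Fin n) ℤ_[ℓ])
    (hsys : ∀ (ℓ : ℕ) [Fact ℓ.Prime], IsSystem s T S P ℓ (α ℓ) (β ℓ))
    -- the places
    (w₀ : HeightOneSpectrum (𝓞 K)) (hw₀ : IsGenericPlace S P w₀)
    (m : ℕ) (u : Fin (m + 1) → HeightOneSpectrum (𝓞 K)) (hu : ∀ i, IsRegularPlace S P (u i))
    (h1 : ∀ (g : AbsoluteGaloisGroup ℚ) (d : ℕ), 0 < d → d < n →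
      ∃ (v : HeightOneSpectrum (𝓞 K)) (w : AbsoluteGaloisGroup ℚ), IsRegularPlace S P v ∧
        (∀ x, (∀ i, x ∈ splittingField (P (u i))) → w x = g x) ∧
        ∀ R, IsStableSet w (P v) R → R.ncard ≠ d)
    (h2 : ∀ g : AbsoluteGaloisGroup ℚ,
      ∃ (v : HeightOneSpectrum (𝓞 K)) (w : AbsoluteGaloisGroup ℚ), IsRegularPlace S P v ∧
        (∀ x, (∀ i, x ∈ splittingField (P (u i))) → w x = g x) ∧
        ∃ x, Polynomial.aeval x (P v) = 0 ∧ w x = x) :
    HasDensityZero {ℓ | ∃ _ : Fact ℓ.Prime,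
      ¬ MumfordTateConjecture (hodge κ T) (galois (α ℓ) (β ℓ))} := by
  have hB : T.Big (Pool.Agent.R932.one1 n) (fun _ => p) (fun _ => q) := by
    refine ⟨fun a b hab => absurd rfl hab, fun a b hab => absurd rfl hab, fun A hA => ?_,
      fun i => ?_, fun i => ?_, fun i => hpq⟩
    · obtain ⟨c, hc⟩ := hEnd A hA
      exact ⟨fun _ => c, by rw [hc, Matrix.smul_one_eq_diagonal]⟩
    · rw [← htr, Matrix.trace]
      refine Finset.sum_congr ?_ fun _ _ => rfl
      ext a
      simp [Subsingleton.elim (0 : Fin 1) i]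
    · have h1 : (Finset.univ.filter fun a : Fin n => Pool.Agent.R932.one1 n a = i) =
          Finset.univ := by
        ext a
        simp [Subsingleton.elim (0 : Fin 1) i]
      rw [h1, Finset.card_univ, Fintype.card_fin, hn]
  have hn0 : 0 < n := by
    rcases hpq with ⟨h, -⟩ | ⟨h, -⟩ <;> omega
  have hrep : ∀ (ℓ : ℕ) [Fact ℓ.Prime], Pool.Agent.R932.RepT s T S P ℓ (β ℓ) := fun ℓ _ =>
    ⟨(hsys ℓ).2.2.1, (hsys ℓ).2.2.2.1, (hsys ℓ).2.2.2.2⟩
  have hsys' : ∀ (ℓ : ℕ) [Fact ℓ.Prime],
      Pool.Agent.Y142.SS.Sys K n ℓ ((Pool.Agent.R932.qrep (β ℓ)).comp s) S P := fun ℓ _ =>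
    ⟨((hrep ℓ).orthogonal hs).1, fun v hv hvℓ σ hσ =>
      ((hrep ℓ).orthogonal hs).2.2.2.2 v hv hvℓ σ hσ⟩
  have hnice : ∀ v, IsRegularPlace S P v → Pool.Agent.Y142.ZS.NiceP S P v := fun v hv =>
    Pool.Agent.Y142.SS.nice_of_complexA _ hsys' hv.1 hv.2.1 hv.2.2
  have hgen : Pool.Agent.Y142.ZS.GenP S P (fun _ => 1) w₀ := by
    refine Pool.Agent.Y142.SU.gen_of_complexU hw₀.1
      (Pool.Agent.Y142.SS.monic_of_sysA _ hsys' hw₀.1).1 one_ne_zero hw₀.2.1 ?_
    intro x y z u hx hy hz hu hxy h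
    rcases hw₀.2.2 x y z u hx hy hz hu hxy h with h | h
    · exact Or.inl h
    · exact Or.inr ⟨by rw [h.1, Rat.cast_one], by rw [h.2, Rat.cast_one]⟩
  have hLf : ∀ (i : Fin (m + 1)) (x : AlgebraicClosure ℚ),
      x ∈ Pool.Agent.Y142.ZI.Lf (P (u i)) → x ∈ splittingField (P (u i)) := by
    intro i x hx
    have h2 : (P (u i)).rootSet (AlgebraicClosure ℚ) =
        {x : AlgebraicClosure ℚ | Polynomial.aeval x (P (u i)) = 0} := by
      ext y
      exact Polynomial.mem_rootSet_of_ne (hu i).2.1.ne_zero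
    unfold Pool.Agent.Y142.ZI.Lf at hx
    rw [h2] at hx
    exact hx
  have hA : ∀ g w : AbsoluteGaloisGroup ℚ,
      (∀ x, (∀ i, x ∈ splittingField (P (u i))) → w x = g x) →
      w⁻¹ * g ∈ Subgroup.closure (⋃ i, Pool.Agent.Y142.SS.Fix (P (u i))) := by
    intro g w hw
    refine Pool.Agent.Y142.SS.field_mem _ (fun i => (hu i).2.1.ne_zero) fun x hx => ?_
    rw [AlgEquiv.mul_apply, ← hw x fun i => hLf i x (hx i), ← AlgEquiv.mul_apply, inv_mul_cancel,
      AlgEquiv.one_apply]
  refine Pool.Agent.R932.mt_even hn0 hB hS hs α (fun ℓ _ => ⟨(hsys ℓ).1, (hsys ℓ).2.1⟩) β hrep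
    hgen u (fun i => hnice _ (hu i)) ?_ ?_
  · intro g d hd0 hdn
    obtain ⟨v, w, hv, hw, hR⟩ := h1 g d hd0 hdn
    exact ⟨v, hnice v hv, w, fun R h1 h2 => hR R ⟨h1, h2⟩, hA g w hw⟩
  · intro g
    obtain ⟨v, w, hv, hw, hx⟩ := h2 g
    exact ⟨v, hnice v hv, w, hx, hA g w hw⟩

end

end Pool.Agent.Results.MP_6369ef_ag.EvenRankDensityOne
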